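import Mathlib
import Pool.Agent.W79.BP.Defs

/-!
Project BP (helper79): almost no graph has a nontrivial automorphism.
-/

set_option autoImplicit false

namespace Pool.Agent.W405.BP

open Pool.Agent.W79.BP
open Finset
open scoped Classical

theorem so_one {n : ℕ} {p q : Fin n × Fin n} (h : SO (1 : Equiv.Perm (Fin n)) p q) :
    (p.1 = q.1 ∧ p.2 = q.2) ∨ (p.1 = q.2 ∧ p.2 = q.1) := by
  obtain ⟨k, h⟩ := h
  simpa using h

theorem fx_bound (h : S_EQ) (n : ℕ) (σ : Equiv.Perm (Fin n)) :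
    (Fx σ).card * 2 ^ ((univ.filter (fun x => ¬ σ x = x)).card * ((n - 2) / 8)) ≤
      Fintype.card (SimpleGraph (Fin n)) := by
  obtain ⟨S, hS⟩ : ∃ S : Finset (Fin n), S = univ.filter (fun x => ¬ σ x = x) := ⟨_, rfl⟩
  obtain ⟨J, hJ⟩ : ∃ J : Finset (Fin n × Fin n), J = univ.filter (fun p => p.1 < p.2 ∧
    (σ p.1 ≠ p.1 ∨ σ p.2 ≠ p.2) ∧ ¬ (σ p.1 = p.2 ∧ σ p.2 = p.1)) := ⟨_, rfl⟩
  have hJm : ∀ p, p ∈ J ↔ p.1 < p.2 ∧ (σ p.1 ≠ p.1 ∨ σ p.2 ≠ p.2) ∧
      ¬ (σ p.1 = p.2 ∧ σ p.2 = p.1) := by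
    intro p
    rw [hJ, mem_filter]
    simp only [mem_univ, true_and]
  rw [← hS]
  -- the number of pairs
  obtain ⟨A, hA⟩ : ∃ A : Finset (Fin n × Fin n),
    A = (S ×ˢ univ).filter (fun p => p.2 ≠ p.1 ∧ p.2 ≠ σ p.1) := ⟨_, rfl⟩
  have h1 : S.card * n ≤ A.card + S.card + S.card := by
    have h2 : (S ×ˢ (univ : Finset (Fin n))) ⊆
        (A ∪ S.image (fun u => (u, u))) ∪ S.image (fun u => (u, σ u)) := by
      rintro ⟨u, v⟩ huv
      have hu := (mem_product.1 huv).1
      rw [mem_union, mem_union, hA, mem_filter, mem_image, mem_image]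
      by_cases h3 : v = u
      · left; right
        exact ⟨u, hu, by rw [h3]⟩
      · by_cases h4 : v = σ u
        · right
          exact ⟨u, hu, by rw [h4]⟩
        · left; left
          exact ⟨huv, h3, h4⟩
    have h3 := card_le_card h2
    rw [card_product, card_univ, Fintype.card_fin] at h3
    refine h3.trans ((card_union_le _ _).trans ?_)
    exact add_le_add ((card_union_le _ _).trans (add_le_add le_rfl card_image_le)) card_image_le
  have h2 : A.card ≤ J.card + J.card := by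
    have h3 : A ⊆ J ∪ J.image Prod.swap := by
      rintro ⟨u, v⟩ huv
      rw [hA, mem_filter, mem_product] at huv
      obtain ⟨⟨hu, -⟩, hvu, hvs⟩ := huv
      simp only at hu hvu hvs
      rw [hS, mem_filter] at hu
      rw [mem_union, mem_image]
      rcases lt_or_gt_of_ne hvu with h4 | h4
      · right
        refine ⟨(v, u), ?_, rfl⟩
        rw [hJm]
        exact ⟨h4, Or.inr hu.2, fun h5 => hvs h5.2.symm⟩
      · left
        rw [hJm]
        exact ⟨h4, Or.inl hu.2, fun h5 => hvs h5.1.symm⟩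
    exact (card_le_card h3).trans ((card_union_le _ _).trans (add_le_add le_rfl card_image_le))
  have h3 : S.card * (n - 2) ≤ 2 * J.card := by
    rw [Nat.mul_sub]
    omega
  have h4 : S.card * ((n - 2) / 8) ≤ J.card / 4 := by
    rw [Nat.le_div_iff_mul_le (by norm_num)]
    have h5 : S.card * ((n - 2) / 8 * 8) ≤ S.card * (n - 2) :=
      Nat.mul_le_mul_left _ (Nat.div_mul_le_self _ _)
    rw [← mul_assoc] at h5
    omega
  -- the equations
  have h5 := h n 1 J (fun j => j.1) (fun j => (σ j.1.1, σ j.1.2))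
    (fun j => ((hJm j.1).1 j.2).1.ne)
    (fun j hj => ((hJm j.1).1 j.2).1.ne (σ.injective hj))
    (fun i j hij hso => by
      have hi := ((hJm i.1).1 i.2).1
      have hj := ((hJm j.1).1 j.2).1
      rcases so_one hso with h6 | h6
      · exact hij (Subtype.ext (Prod.ext h6.1 h6.2))
      · rw [h6.1, h6.2] at hi
        exact lt_asymm hi hj)
    (fun j hso => by
      obtain ⟨-, h7, h8⟩ := (hJm j.1).1 j.2
      rcases so_one hso with h6 | h6
      · rcases h7 with h7 | h7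
        · exact h7 h6.1.symm
        · exact h7 h6.2.symm
      · exact h8 ⟨h6.2.symm, h6.1.symm⟩)
  rw [Fintype.card_coe] at h5
  have h6 : Fx σ ⊆ (Fx (1 : Equiv.Perm (Fin n))).filter (fun β => ∀ j : J,
      β.Adj j.1.1 j.1.2 ↔ β.Adj (σ j.1.1, σ j.1.2).1 (σ j.1.1, σ j.1.2).2) := by
    intro β hβ
    unfold Fx at hβ
    rw [mem_filter] at hβ
    rw [mem_filter]
    refine ⟨?_, fun j => ?_⟩
    · unfold Fx
      rw [mem_filter]
      refine ⟨mem_univ _, ?_⟩
      ext u v
      simp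
    · have h7 := congrArg (fun γ : SimpleGraph (Fin n) => γ.Adj j.1.1 j.1.2) hβ.2
      simp only [SimpleGraph.comap_adj, eq_iff_iff] at h7
      exact h7.symm
  calc (Fx σ).card * 2 ^ (S.card * ((n - 2) / 8))
      ≤ (Fx σ).card * 2 ^ (J.card / 4) :=
        Nat.mul_le_mul_left _ (Nat.pow_le_pow_right (by norm_num) h4)
    _ ≤ _ := Nat.mul_le_mul_right _ (card_le_card h6)
    _ ≤ _ := h5
    _ ≤ _ := card_le_univ _

theorem sum_perm (n : ℕ) (w : ℝ) (hw : 0 ≤ w) :
    ∑ σ : Equiv.Perm (Fin n), w ^ (univ.filter (fun x => ¬ σ x = x)).card ≤ (1 + n * w) ^ n := by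
  have h1 : ∀ σ : Equiv.Perm (Fin n), w ^ (univ.filter (fun x => ¬ σ x = x)).card =
      ∏ x, (if (σ : Fin n → Fin n) x = x then 1 else w) := by
    intro σ
    rw [prod_ite, prod_const_one, one_mul, prod_const]
  simp only [h1]
  have h2 : ∑ σ : Equiv.Perm (Fin n), ∏ x, (if (σ : Fin n → Fin n) x = x then 1 else w) =
      ∑ f ∈ (univ : Finset (Equiv.Perm (Fin n))).map
        (⟨fun σ => ⇑σ, DFunLike.coe_injective⟩ : Equiv.Perm (Fin n) ↪ (Fin n → Fin n)),
        ∏ x, (if f x = x then 1 else w) := by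
    rw [Finset.sum_map]
    rfl
  rw [h2]
  calc _ ≤ ∑ f : Fin n → Fin n, ∏ x, (if f x = x then 1 else w) := by
        refine sum_le_sum_of_subset_of_nonneg (subset_univ _) fun f _ _ => prod_nonneg fun x _ => ?_
        split_ifs
        · exact zero_le_one
        · exact hw
    _ = ∏ x : Fin n, ∑ y : Fin n, (if y = x then 1 else w) := by
        rw [Finset.prod_univ_sum, Fintype.piFinset_univ]
    _ ≤ ∏ x : Fin n, (1 + n * w) := by
        refine prod_le_prod (fun x _ => sum_nonneg fun y _ => ?_) fun x _ => ?_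
        · split_ifs
          · exact zero_le_one
          · exact hw
        · calc ∑ y : Fin n, (if y = x then (1 : ℝ) else w)
              ≤ ∑ y : Fin n, ((if y = x then (1 : ℝ) else 0) + w) := by
                refine sum_le_sum fun y _ => ?_
                split_ifs <;> linarith
            _ = 1 + n * w := by
                rw [sum_add_distrib, sum_ite_eq' univ x, if_pos (mem_univ x), sum_const, card_univ,
                  Fintype.card_fin, nsmul_eq_mul]
    _ = (1 + n * w) ^ n := by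
        rw [prod_const, card_univ, Fintype.card_fin]

theorem big (c : ℕ) (hc : 20 ≤ c) : 32 * (8 * c + 9) ^ 2 ≤ 2 ^ c := by
  induction c, hc using Nat.le_induction with
  | base => norm_num
  | succ c hc ih =>
    have h1 : 2 ^ (c + 1) = 2 * 2 ^ c := by rw [pow_succ, mul_comm]
    rw [h1]
    nlinarith

theorem main : S_EQ → S_UNI := by
  intro h
  refine ⟨162, fun n hn => ?_⟩
  obtain ⟨c, hc⟩ : ∃ c, c = (n - 2) / 8 := ⟨_, rfl⟩
  have hc20 : 20 ≤ c := by omega
  have hnc : n ≤ 8 * c + 9 := by omega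
  obtain ⟨w, hw⟩ : ∃ w : ℝ, w = (1 / 2) ^ c := ⟨_, rfl⟩
  have hw0 : 0 < w := by rw [hw]; positivity
  obtain ⟨Γ, hΓ⟩ : ∃ Γ, Γ = Fintype.card (SimpleGraph (Fin n)) := ⟨_, rfl⟩
  have h1 : ∀ σ : Equiv.Perm (Fin n),
      ((Fx σ).card : ℝ) ≤ Γ * w ^ (univ.filter (fun x => ¬ σ x = x)).card := by
    intro σ
    have h2 := fx_bound h n σ
    rw [← hΓ, ← hc] at h2
    have h3 : ((Fx σ).card : ℝ) * 2 ^ ((univ.filter (fun x => ¬ σ x = x)).card * c) ≤ Γ := by
      exact_mod_cast h2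
    have h4 : w ^ (univ.filter (fun x => ¬ σ x = x)).card *
        2 ^ ((univ.filter (fun x => ¬ σ x = x)).card * c) = 1 := by
      rw [hw, ← pow_mul, mul_comm c, ← mul_pow]
      norm_num
    have h5 : 0 ≤ w ^ (univ.filter (fun x => ¬ σ x = x)).card := by positivity
    calc ((Fx σ).card : ℝ) = (Fx σ).card * (w ^ (univ.filter (fun x => ¬ σ x = x)).card *
          2 ^ ((univ.filter (fun x => ¬ σ x = x)).card * c)) := by rw [h4, mul_one]
      _ = ((Fx σ).card * 2 ^ ((univ.filter (fun x => ¬ σ x = x)).card * c)) *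
          w ^ (univ.filter (fun x => ¬ σ x = x)).card := by ring
      _ ≤ _ := mul_le_mul_of_nonneg_right h3 h5
  have h2 : (n : ℝ) * (n * w) ≤ 1 / 32 := by
    have h3 : (32 : ℝ) * (n : ℝ) ^ 2 ≤ 2 ^ c := by
      have h4 : 32 * n ^ 2 ≤ 2 ^ c :=
        (Nat.mul_le_mul_left _ (Nat.pow_le_pow_left hnc 2)).trans (big c hc20)
      exact_mod_cast h4
    have h4 : w * 2 ^ c = 1 := by
      rw [hw, ← mul_pow]
      norm_num
    have h5 : 32 * (n : ℝ) ^ 2 * w ≤ 2 ^ c * w := mul_le_mul_of_nonneg_right h3 hw0.le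
    rw [mul_comm (2 ^ c : ℝ) w, h4] at h5
    have h6 : (n : ℝ) * (n * w) = (n : ℝ) ^ 2 * w := by ring
    rw [h6]
    linarith
  have h3 : (1 + n * w) ^ n ≤ 17 / 16 := by
    have h4 : (1 + n * w) ^ n ≤ Real.exp (n * (n * w)) := by
      have h5 : 1 + n * w ≤ Real.exp (n * w) := by
        have := Real.add_one_le_exp (n * w)
        linarith
      refine (pow_le_pow_left₀ (by positivity) h5 n).trans (le_of_eq ?_)
      rw [← Real.exp_nat_mul]
    refine h4.trans ((Real.exp_le_exp.2 h2).trans ?_)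
    have h6 := Real.add_one_le_exp (-(1 / 32 : ℝ))
    have h7 : Real.exp (1 / 32) * Real.exp (-(1 / 32)) = 1 := by
      rw [← Real.exp_add]
      norm_num
    have h8 : 0 < Real.exp (1 / 32 : ℝ) := Real.exp_pos _
    nlinarith
  have h4 : ∑ σ ∈ (Finset.univ : Finset (Equiv.Perm (Fin n))).erase 1,
      w ^ (univ.filter (fun x => ¬ σ x = x)).card ≤ 1 / 16 := by
    have h5 := sum_perm n w hw0.le
    rw [← Finset.add_sum_erase _ _ (mem_univ (1 : Equiv.Perm (Fin n)))] at h5
    have h6 : w ^ (univ.filter (fun x => ¬ (1 : Equiv.Perm (Fin n)) x = x)).card = 1 := by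
      simp
    rw [h6] at h5
    linarith
  have h5 : ((∑ σ ∈ (Finset.univ : Finset (Equiv.Perm (Fin n))).erase 1, (Fx σ).card : ℕ) : ℝ) ≤
      Γ * (1 / 16) := by
    rw [Nat.cast_sum]
    calc _ ≤ ∑ σ ∈ (Finset.univ : Finset (Equiv.Perm (Fin n))).erase 1,
          (Γ : ℝ) * w ^ (univ.filter (fun x => ¬ σ x = x)).card := sum_le_sum fun σ _ => h1 σ
      _ = Γ * ∑ σ ∈ (Finset.univ : Finset (Equiv.Perm (Fin n))).erase 1,
          w ^ (univ.filter (fun x => ¬ σ x = x)).card := by rw [mul_sum]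
      _ ≤ _ := mul_le_mul_of_nonneg_left h4 (Nat.cast_nonneg _)
  have h6 : (16 : ℝ) * ((∑ σ ∈ (Finset.univ : Finset (Equiv.Perm (Fin n))).erase 1,
      (Fx σ).card : ℕ) : ℝ) ≤ Γ := by linarith
  rw [← hΓ]
  exact_mod_cast h6

end Pool.Agent.W405.BP
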